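import Pool.Agent.MP_bcc2ed_al.H66.Sym

set_option autoImplicit false

namespace Pool.Agent.MP_bcc2ed_al.H66

/-- Every value with two factorizations separated by an invariant needs a relation. -/
theorem need_relation {e : ℕ} (n : Fin e → ℕ) (ρ : Finset ((Fin e → ℕ) × (Fin e → ℕ)))
    (hρ : ∀ a b : Fin e → ℕ, addConGen (fun u v : Fin e → ℕ => (u, v) ∈ ρ) a b ↔
      ∑ i, a i * n i = ∑ i, b i * n i)
    (s : ℕ) (K : (Fin e → ℕ) → Prop) (z₁ z₂ : Fin e → ℕ)
    (h1 : ∑ i, z₁ i * n i = s) (h2 : ∑ i, z₂ i * n i = s) (k1 : K z₁) (k2 : ¬ K z₂)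
    (hK : ∀ u v c : Fin e → ℕ, c ≠ 0 → ∑ i, (u + c) i * n i = s → ∑ i, (v + c) i * n i = s →
      K (u + c) → K (v + c)) :
    ∃ p ∈ ρ, ∑ i, p.1 i * n i = s := by
  by_contra hno
  push Not at hno
  have hadd : ∀ a b : Fin e → ℕ, ∑ i, (a + b) i * n i = ∑ i, a i * n i + ∑ i, b i * n i := by
    intro a b
    rw [← Finset.sum_add_distrib]
    exact Finset.sum_congr rfl fun i _ => by rw [Pi.add_apply, add_mul]
  let C : AddCon (Fin e → ℕ) :=
    { r := fun a b => ∑ i, a i * n i = ∑ i, b i * n i ∧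
        ∀ c : Fin e → ℕ, ∑ i, (a + c) i * n i = s → (K (a + c) ↔ K (b + c))
      iseqv :=
        ⟨fun a => ⟨rfl, fun _ _ => Iff.rfl⟩,
         fun {a b} h => ⟨h.1.symm, fun c hc => (h.2 c (by rw [hadd] at hc ⊢; rw [h.1, hc])).symm⟩,
         fun {a b d} h h' => ⟨h.1.trans h'.1, fun c hc =>
            (h.2 c hc).trans (h'.2 c (by rw [hadd] at hc ⊢; rw [← h.1, hc]))⟩⟩
      add' := by
        rintro a b a' b' ⟨p1, p2⟩ ⟨q1, q2⟩
        refine ⟨by rw [hadd, hadd, p1, q1], fun c hc => ?_⟩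
        have e1 : a + a' + c = a + (a' + c) := add_assoc _ _ _
        have e2 : b + (a' + c) = a' + (b + c) := by abel
        have e3 : b' + (b + c) = b + b' + c := by abel
        have s1 : ∑ i, (a + (a' + c)) i * n i = s := by rw [← e1]; exact hc
        have s2 : ∑ i, (a' + (b + c)) i * n i = s := by
          rw [← e2]; rw [hadd] at s1 ⊢; rw [← p1]; exact s1
        rw [e1, p2 _ s1, e2, q2 _ s2, e3] }
  have hle : addConGen (fun u v : Fin e → ℕ => (u, v) ∈ ρ) ≤ C := by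
    rw [AddCon.addConGen_le]
    intro u v huv
    have huv' : ∑ i, u i * n i = ∑ i, v i * n i :=
      (hρ u v).1 (AddConGen.Rel.of u v huv)
    refine ⟨huv', fun c hc => ?_⟩
    have hc0 : c ≠ 0 := by
      rintro rfl
      rw [add_zero] at hc
      exact hno (u, v) huv hc
    have hc' : ∑ i, (v + c) i * n i = s := by rw [hadd] at hc ⊢; rw [← huv', hc]
    exact ⟨hK u v c hc0 hc hc', hK v u c hc0 hc' hc⟩
  have := (hle ((hρ z₁ z₂).2 (h1.trans h2.symm))).2 0 (by rw [add_zero]; exact h1)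
  rw [add_zero, add_zero] at this
  exact k2 (this.1 k1)

/-- The semigroup of all a*h + d1*x + d2*y + d3*t with x, y, t at most h. -/
def box (a d₁ d₂ d₃ : ℕ) : AddSubmonoid ℕ where
  carrier := {m | ∃ h x y t : ℕ, x ≤ h ∧ y ≤ h ∧ t ≤ h ∧ m = a * h + d₁ * x + d₂ * y + d₃ * t}
  zero_mem' := ⟨0, 0, 0, 0, le_rfl, le_rfl, le_rfl, by simp⟩
  add_mem' := by
    rintro _ _ ⟨h, x, y, t, a1, a2, a3, rfl⟩ ⟨h', x', y', t', b1, b2, b3, rfl⟩
    exact ⟨h + h', x + x', y + y', t + t', by omega, by omega, by omega, by ring⟩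

theorem mem_box {a d₁ d₂ d₃ m : ℕ} : m ∈ box a d₁ d₂ d₃ ↔
    ∃ h x y t : ℕ, x ≤ h ∧ y ≤ h ∧ t ≤ h ∧ m = a * h + d₁ * x + d₂ * y + d₃ * t := Iff.rfl

/-- the eight generators -/
def gens (a d₁ d₂ d₃ : ℕ) : Fin 8 → ℕ :=
  ![a, a + d₁, a + d₂, a + d₁ + d₂, a + d₃, a + d₁ + d₃, a + d₂ + d₃, a + d₁ + d₂ + d₃]

theorem box_ge {a d₁ d₂ d₃ m : ℕ} (hm : m ∈ box a d₁ d₂ d₃) (h0 : m ≠ 0) : a ≤ m := by
  obtain ⟨h, x, y, t, a1, a2, a3, rfl⟩ := hm
  rcases Nat.eq_zero_or_pos h with rfl | hpos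
  · have : x = 0 := by omega
    have : y = 0 := by omega
    have : t = 0 := by omega
    subst_vars
    simp at h0
  · have : a * 1 ≤ a * h := Nat.mul_le_mul_left a hpos
    omega

theorem range_gens {a d₁ d₂ d₃ : ℕ} (ha : d₁ + d₂ + d₃ < a) :
    Set.range (gens a d₁ d₂ d₃) = {x : ℕ | x ∈ box a d₁ d₂ d₃ ∧ x ≠ 0 ∧
      ∀ u ∈ box a d₁ d₂ d₃, ∀ v ∈ box a d₁ d₂ d₃, u + v = x → u = 0 ∨ v = 0} := by
  ext m
  constructor
  · rintro ⟨i, rfl⟩
    have hb : a ≤ gens a d₁ d₂ d₃ i ∧ gens a d₁ d₂ d₃ i ≤ a + d₁ + d₂ + d₃ := by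
      fin_cases i <;> simp [gens] <;> omega
    refine ⟨?_, by omega, fun u hu v hv huv => ?_⟩
    · rw [mem_box]
      fin_cases i
      · exact ⟨1, 0, 0, 0, by omega, by omega, by omega, by simp [gens]⟩
      · exact ⟨1, 1, 0, 0, by omega, by omega, by omega, by simp [gens]⟩
      · exact ⟨1, 0, 1, 0, by omega, by omega, by omega, by simp [gens]⟩
      · exact ⟨1, 1, 1, 0, by omega, by omega, by omega, by simp [gens]⟩
      · exact ⟨1, 0, 0, 1, by omega, by omega, by omega, by simp [gens]⟩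
      · exact ⟨1, 1, 0, 1, by omega, by omega, by omega, by simp [gens]⟩
      · exact ⟨1, 0, 1, 1, by omega, by omega, by omega, by simp [gens]⟩
      · exact ⟨1, 1, 1, 1, by omega, by omega, by omega, by simp [gens]⟩
    · by_contra hne
      push Not at hne
      have := box_ge hu hne.1
      have := box_ge hv hne.2
      omega
  · rintro ⟨⟨h, x, y, t, a1, a2, a3, rfl⟩, h0, hirr⟩
    have hh : h = 1 := by
      by_contra hne
      rcases Nat.eq_zero_or_pos h with rfl | hpos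
      · have : x = 0 := by omega
        have : y = 0 := by omega
        have : t = 0 := by omega
        subst_vars
        simp at h0
      · obtain ⟨h', rfl⟩ : ∃ h', h = h' + 2 := ⟨h - 2, by omega⟩
        have m1 : a * 1 + d₁ * (min x 1) + d₂ * (min y 1) + d₃ * (min t 1) ∈ box a d₁ d₂ d₃ :=
          ⟨1, min x 1, min y 1, min t 1, by omega, by omega, by omega, rfl⟩
        have m2 : a * (h' + 1) + d₁ * (x - min x 1) + d₂ * (y - min y 1) + d₃ * (t - min t 1)
            ∈ box a d₁ d₂ d₃ :=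
          ⟨h' + 1, x - min x 1, y - min y 1, t - min t 1, by omega, by omega, by omega, rfl⟩
        have e1 : d₁ * x = d₁ * (min x 1) + d₁ * (x - min x 1) := by
          rw [← mul_add]; congr 1; omega
        have e2 : d₂ * y = d₂ * (min y 1) + d₂ * (y - min y 1) := by
          rw [← mul_add]; congr 1; omega
        have e3 : d₃ * t = d₃ * (min t 1) + d₃ * (t - min t 1) := by
          rw [← mul_add]; congr 1; omega
        have e4 : a * (h' + 2) = a * 1 + a * (h' + 1) := by ring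
        have e5 : a * (h' + 1) = a * h' + a := by ring
        rcases hirr _ m1 _ m2 (by omega) with h1 | h1 <;> omega
    subst hh
    interval_cases x <;> interval_cases y <;> interval_cases t
    · exact ⟨0, by simp [gens]⟩
    · exact ⟨4, by simp [gens]⟩
    · exact ⟨2, by simp [gens]⟩
    · exact ⟨6, by simp [gens]⟩
    · exact ⟨1, by simp [gens]⟩
    · exact ⟨5, by simp [gens]⟩
    · exact ⟨3, by simp [gens]⟩
    · exact ⟨7, by simp [gens]⟩

theorem gens_inj {a P τ : ℕ} (hτ : 2 ≤ τ) (hP : τ < P) :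
    Function.Injective (gens a P (P + τ) (2 * P + 1)) := by
  intro i j hij
  fin_cases i <;> fin_cases j <;> simp [gens] at hij ⊢ <;> omega

theorem sum_gens (a d₁ d₂ d₃ : ℕ) (z : Fin 8 → ℕ) :
    ∑ i, z i * gens a d₁ d₂ d₃ i =
      a * (z 0 + z 1 + z 2 + z 3 + z 4 + z 5 + z 6 + z 7) + d₁ * (z 1 + z 3 + z 5 + z 7)
        + d₂ * (z 2 + z 3 + z 6 + z 7) + d₃ * (z 4 + z 5 + z 6 + z 7) := by
  rw [Fin.sum_univ_eight]
  simp [gens]
  ring

/-- Factorizations of the special elements. -/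
theorem dichotomy {a r τ j h x y t : ℕ} (hτ : r + 1 < τ) (hj : j ≤ r)
    (ha : (r + 1) * (τ * r + (τ * r + τ) + (2 * (τ * r) + 1)) < a)
    (hx : x ≤ h) (hy : y ≤ h) (ht : t ≤ h)
    (e : a * h + τ * r * x + (τ * r + τ) * y + (2 * (τ * r) + 1) * t =
      a * (r + 1) + τ * r * (r + 1) + (2 * (τ * r) + 1) * j) :
    x = h ∨ x = 0 := by
  set d₁ := τ * r with hd₁
  set d₂ := τ * r + τ with hd₂
  set d₃ := 2 * (τ * r) + 1 with hd₃
  have hh : h = r + 1 := by
    rcases lt_trichotomy h (r + 1) with hlt | heq | hgt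
    · exfalso
      have b1 : d₁ * x ≤ d₁ * r := Nat.mul_le_mul_left _ (by omega)
      have b2 : d₂ * y ≤ d₂ * r := Nat.mul_le_mul_left _ (by omega)
      have b3 : d₃ * t ≤ d₃ * r := Nat.mul_le_mul_left _ (by omega)
      have b4 : a * h ≤ a * r := Nat.mul_le_mul_left _ (by omega)
      nlinarith
    · exact heq
    · exfalso
      have b3 : d₃ * j ≤ d₃ * r := Nat.mul_le_mul_left _ hj
      have b4 : a * (r + 2) ≤ a * h := Nat.mul_le_mul_left _ (by omega)
      nlinarith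
  subst hh
  have e' : (τ : ℤ) * (r * x + (r + 1) * y + 2 * r * t - r * (r + 1) - 2 * r * j) = j - t := by
    have := congrArg (fun m : ℕ => (m : ℤ)) e
    simp only [hd₁, hd₂, hd₃] at this
    push_cast at this
    linear_combination this
  have hτ' : (r : ℤ) + 1 < τ := by exact_mod_cast hτ
  have hz : (r * x + (r + 1) * y + 2 * r * t - r * (r + 1) - 2 * r * j : ℤ) = 0 := by
    by_contra hne
    rcases lt_or_gt_of_ne hne with hl | hl
    · have : (τ : ℤ) * (r * x + (r + 1) * y + 2 * r * t - r * (r + 1) - 2 * r * j) ≤ τ * (-1) :=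
        mul_le_mul_of_nonneg_left (by omega) (by positivity)
      omega
    · have : (τ : ℤ) * 1 ≤ τ * (r * x + (r + 1) * y + 2 * r * t - r * (r + 1) - 2 * r * j) :=
        mul_le_mul_of_nonneg_left (by omega) (by positivity)
      omega
  rw [hz, mul_zero] at e'
  have htj : t = j := by omega
  subst htj
  have e2 : (y : ℤ) = r * (r + 1 - x - y) := by linear_combination hz
  rcases lt_trichotomy ((r : ℤ) + 1 - x - y) 0 with hl | hl | hl
  · have : (r : ℤ) * (r + 1 - x - y) ≤ r * (-1) :=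
      mul_le_mul_of_nonneg_left (by omega) (by positivity)
    omega
  · rw [hl, mul_zero] at e2
    omega
  · have : (r : ℤ) * 1 ≤ r * (r + 1 - x - y) :=
      mul_le_mul_of_nonneg_left (by omega) (by positivity)
    omega

theorem card_lower {a r τ : ℕ} (hτ : r + 1 < τ)
    (ha : (r + 1) * (τ * r + (τ * r + τ) + (2 * (τ * r) + 1)) < a)
    (ρ : Finset ((Fin 8 → ℕ) × (Fin 8 → ℕ)))
    (hρ : ∀ u v : Fin 8 → ℕ, addConGen (fun u v : Fin 8 → ℕ => (u, v) ∈ ρ) u v ↔
      ∑ i, u i * gens a (τ * r) (τ * r + τ) (2 * (τ * r) + 1) i =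
        ∑ i, v i * gens a (τ * r) (τ * r + τ) (2 * (τ * r) + 1) i) :
    r + 1 ≤ ρ.card := by
  classical
  have key : ∀ j : ℕ, j ≤ r → ∃ p ∈ ρ, ∑ i, p.1 i * gens a (τ * r) (τ * r + τ) (2 * (τ * r) + 1) i
      = a * (r + 1) + τ * r * (r + 1) + (2 * (τ * r) + 1) * j := by
    intro j hj
    obtain ⟨m, rfl⟩ : ∃ m, r = j + m := ⟨r - j, by omega⟩
    refine need_relation _ ρ hρ _ (fun z => z 1 + z 3 + z 5 + z 7 = 0)
      ![1, 0, m, 0, 0, 0, j, 0] ![0, m + 1, 0, 0, 0, j, 0, 0] ?_ ?_ ?_ ?_ ?_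
    · rw [sum_gens]; simp; ring
    · rw [sum_gens]; simp; ring
    · simp
    · simp
    · intro u v c hc _ hv hu
      rw [sum_gens] at hv
      have := dichotomy hτ hj ha (by omega) (by omega) (by omega) hv
      simp only [Pi.add_apply] at this hu ⊢
      rcases this with h1 | h1
      · exfalso
        apply hc
        funext i
        fin_cases i <;> simp <;> omega
      · exact h1
  have hsub : (Finset.range (r + 1)).image
      (fun j => a * (r + 1) + τ * r * (r + 1) + (2 * (τ * r) + 1) * j) ⊆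
      ρ.image (fun p => ∑ i, p.1 i * gens a (τ * r) (τ * r + τ) (2 * (τ * r) + 1) i) := by
    intro s hs
    obtain ⟨j, hj, rfl⟩ := Finset.mem_image.1 hs
    obtain ⟨p, hp, e⟩ := key j (by have := Finset.mem_range.1 hj; omega)
    exact Finset.mem_image.2 ⟨p, hp, e⟩
  have h1 := Finset.card_le_card hsub
  rw [Finset.card_image_of_injective, Finset.card_range] at h1
  · exact h1.trans Finset.card_image_le
  · intro j j' hjj
    have : (2 * (τ * r) + 1) * j = (2 * (τ * r) + 1) * j' := by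
      simp only at hjj; omega
    exact Nat.eq_of_mul_eq_mul_left (by omega) this

end Pool.Agent.MP_bcc2ed_al.H66
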