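import Pool.Agent.MP_bcc2ed_al.H66.Family

set_option autoImplicit false

namespace Pool.Agent.MP_bcc2ed_al.H66

/-- the nonnegative integers -/
def nn : AddSubmonoid ℤ where
  carrier := {x | 0 ≤ x}
  zero_mem' := show (0 : ℤ) ≤ 0 from le_rfl
  add_mem' := fun {a b} (ha : 0 ≤ a) (hb : 0 ≤ b) => add_nonneg ha hb

theorem mem_nn {x : ℤ} : x ∈ nn ↔ 0 ≤ x := Iff.rfl

theorem nn_symm : Symm nn (-1) := by
  intro x
  rw [mem_nn, mem_nn]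
  omega

theorem glue_nonneg {H : AddSubmonoid ℤ} {τ ι : ℤ} (hH : ∀ x ∈ H, 0 ≤ x) (hτ : 0 ≤ τ)
    (hι : 0 ≤ ι) : ∀ x ∈ glue H τ ι, 0 ≤ x := by
  rintro _ ⟨i, hi, t, ht, rfl⟩
  have := hH i hi
  positivity

theorem big_mem {H : AddSubmonoid ℤ} {F x : ℤ} (hH : Symm H F) (hpos : ∀ x ∈ H, 0 ≤ x)
    (hx : F < x) : x ∈ H := by
  refine (hH x).2 fun hh => ?_
  have := hpos _ hh
  omega

theorem exists_symmetric (r τ : ℕ) (hr : 4 ≤ r) (hτ : (τ : ℤ) = r * r - r) :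
    ∃ a : ℕ, (r + 1) * (τ * r + (τ * r + τ) + (2 * (τ * r) + 1)) < a ∧
      ∃ F : ℤ, ∀ x : ℤ, (∃ m ∈ box a (τ * r) (τ * r + τ) (2 * (τ * r) + 1), (m : ℤ) = x) ↔
        ¬ ∃ m ∈ box a (τ * r) (τ * r + τ) (2 * (τ * r) + 1), (m : ℤ) = F - x := by
  have hr' : (4 : ℤ) ≤ r := by exact_mod_cast hr
  have hτ0 : (0 : ℤ) < τ := by rw [hτ]; nlinarith
  have hc0 : IsCoprime (r : ℤ) (r + 1) := ⟨-1, 1, by ring⟩
  have hι0 : (r : ℤ) + 1 ∈ nn := by rw [mem_nn]; omega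
  set H₀ := glue nn r (r + 1) with hH₀
  set F₀ : ℤ := r * (-1) + (r - 1) * (r + 1) with hF₀
  have s0 : Symm H₀ F₀ := glue_symm nn_symm (by omega) hc0 hι0
  have p0 : ∀ x ∈ H₀, 0 ≤ x := glue_nonneg (fun x hx => hx) (by omega) (by omega)
  have hF₀' : F₀ = τ - 1 := by rw [hτ, hF₀]; ring
  set ι : ℤ := 2 * (τ * r) + 1 with hι
  have hτr : (0 : ℤ) ≤ τ * (r - 1) := mul_nonneg hτ0.le (by omega)
  have hιH : ι ∈ H₀ := big_mem s0 p0 (by rw [hF₀', hι]; nlinarith)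
  have hc1 : IsCoprime (τ : ℤ) ι := ⟨-(2 * r), 1, by rw [hι]; ring⟩
  have hq : (1 * r + (r + 1) : ℤ) ∈ H₀ := ⟨1, by rw [mem_nn]; omega, 1, by omega, by ring⟩
  have hq1 : (1 * r + (r + 1) : ℤ) * (τ - 2) - ι ∉ H₀ := by
    have h2 : (1 * r + (r + 1) : ℤ) * 2 ∈ H₀ := mul_mem' hq (by omega)
    have := (s0 _).1 h2
    have e : (1 * r + (r + 1) : ℤ) * (τ - 2) - ι = F₀ - (1 * r + (r + 1)) * 2 := by
      rw [hF₀', hι]; ring
    rwa [e]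
  have hq2 : 2 * F₀ - (1 * r + (r + 1) : ℤ) * τ + ι ∉ H₀ := by
    have := (s0 _).1 H₀.zero_mem
    have e : 2 * F₀ - (1 * r + (r + 1) : ℤ) * τ + ι = F₀ - 0 := by
      rw [hF₀', hι]; ring
    rwa [e]
  set H₁ := glue H₀ τ ι with hH₁
  set F₁ : ℤ := τ * F₀ + (τ - 1) * ι with hF₁
  have s1 : Symm H₁ F₁ := glue_symm s0 hτ0 hc1 hιH
  have hι0' : 0 < ι := by rw [hι]; positivity
  have p1 : ∀ x ∈ H₁, 0 ≤ x := glue_nonneg p0 hτ0.le hι0'.le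
  have hF₁0 : 0 ≤ F₁ := by
    have : (0 : ℤ) ≤ τ - 1 := by omega
    rw [hF₁, hF₀']; positivity
  set Q : ℤ := (1 * r + (r + 1)) * τ + ι with hQ
  have hQ1 : 1 ≤ Q := by
    have : (0 : ℤ) ≤ (1 * r + (r + 1)) * τ := by positivity
    omega
  have hQH : Q ∈ H₁ := ⟨_, hq, 1, by omega, by rw [hQ]; ring⟩
  set k : ℤ := 3 * F₁ + r + 2 with hk
  have hbig : F₁ + (r + 2) * Q ≤ k * Q - 2 * F₁ := by
    have : F₁ * 1 ≤ F₁ * Q := mul_le_mul_of_nonneg_left hQ1 hF₁0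
    rw [hk]; nlinarith
  have hrQ : (0 : ℤ) ≤ (r + 1) * Q := by positivity
  obtain ⟨a, ha⟩ := Int.eq_ofNat_of_zero_le (show 0 ≤ k * Q - 2 * F₁ by nlinarith)
  have haF : F₁ < a := by rw [← ha]; nlinarith
  have haQ : (r + 1) * Q < a := by rw [← ha]; nlinarith
  have ha0 : (0 : ℤ) < a := by omega
  have haH : (a : ℤ) ∈ H₁ := big_mem s1 p1 haF
  have hmem : ∀ x : ℤ, (∃ m ∈ box a (τ * r) (τ * r + τ) (2 * (τ * r) + 1), (m : ℤ) = x) ↔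
      ∃ h : ℤ, x - a * h ∈ H₁ ∧ (a + Q) * h - x ∈ H₁ := by
    intro x
    constructor
    · rintro ⟨_, ⟨h, u, v, t, a1, a2, a3, rfl⟩, rfl⟩
      refine ⟨h, ⟨r * u + (r + 1) * v, ⟨u, by rw [mem_nn]; omega, v, by omega, rfl⟩, t, by omega, ?_⟩,
        ⟨r * (h - u) + (r + 1) * (h - v), ⟨h - u, by rw [mem_nn]; omega, h - v, by omega, rfl⟩,
          h - t, by omega, ?_⟩⟩
      · rw [hι]; push_cast; ring
      · rw [hQ, hι]; push_cast; ring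
    · rintro ⟨h, b1, b2⟩
      have hh : 0 ≤ h := by
        have c1 := p1 _ b1
        have c2 := p1 _ b2
        by_contra hneg
        have : Q * h ≤ Q * (-1) := mul_le_mul_of_nonneg_left (by omega) (by omega)
        nlinarith
      have e : (a + Q) * h - x = Q * h - (x - a * h) := by ring
      rw [e] at b2
      obtain ⟨i, c1, c2, t, c3, c4, c5⟩ := acm s0 hτ0 hc1 hιH hq hq1 hq2 hh b1 b2
      obtain ⟨u, d1, d2, v, d3, d4, d5⟩ := acm (q := 1) nn_symm (by omega) hc0 hι0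
        (by rw [mem_nn]; omega) (by rw [mem_nn]; omega) (by rw [mem_nn]; omega) hh c1 c2
      rw [mem_nn] at d1 d2
      obtain ⟨h, rfl⟩ := Int.eq_ofNat_of_zero_le hh
      obtain ⟨u, rfl⟩ := Int.eq_ofNat_of_zero_le d1
      obtain ⟨v, rfl⟩ := Int.eq_ofNat_of_zero_le d3
      obtain ⟨t, rfl⟩ := Int.eq_ofNat_of_zero_le c3
      refine ⟨_, ⟨h, u, v, t, by omega, by omega, by omega, rfl⟩, ?_⟩
      rw [d5, hι] at c5
      push_cast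
      linear_combination -c5
  refine ⟨a, ?_, F₁ + a * (k + 1), fun x => ?_⟩
  · have : (((r + 1) * (τ * r + (τ * r + τ) + (2 * (τ * r) + 1)) : ℕ) : ℤ) < a := by
      refine lt_of_le_of_lt (le_of_eq ?_) haQ
      rw [hQ, hι]; push_cast; ring
    exact_mod_cast this
  · rw [hmem, hmem]
    exact shift_symm s1 p1 haH ha0 hQH ha.symm x

end Pool.Agent.MP_bcc2ed_al.H66
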