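import Mathlib

set_option autoImplicit false

namespace Pool.Agent.MP_bcc2ed_al.H66

/-- symmetric with respect to F -/
def Symm (H : AddSubmonoid ℤ) (F : ℤ) : Prop := ∀ x : ℤ, x ∈ H ↔ F - x ∉ H

theorem mul_mem' {H : AddSubmonoid ℤ} {x m : ℤ} (hx : x ∈ H) (hm : 0 ≤ m) : x * m ∈ H := by
  obtain ⟨n, rfl⟩ := Int.eq_ofNat_of_zero_le hm
  have := nsmul_mem hx n
  rw [nsmul_eq_mul] at this
  rwa [mul_comm]

/-- the monoid of all tau * i + iota * t -/
def glue (H : AddSubmonoid ℤ) (τ ι : ℤ) : AddSubmonoid ℤ where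
  carrier := {y | ∃ i ∈ H, ∃ t : ℤ, 0 ≤ t ∧ y = τ * i + ι * t}
  zero_mem' := ⟨0, H.zero_mem, 0, le_rfl, by ring⟩
  add_mem' := by
    rintro _ _ ⟨i, hi, t, ht, rfl⟩ ⟨i', hi', t', ht', rfl⟩
    exact ⟨i + i', H.add_mem hi hi', t + t', by omega, by ring⟩

theorem mem_glue {H : AddSubmonoid ℤ} {τ ι y : ℤ} :
    y ∈ glue H τ ι ↔ ∃ i ∈ H, ∃ t : ℤ, 0 ≤ t ∧ y = τ * i + ι * t := Iff.rfl

theorem normal_form {τ ι : ℤ} (hτ : 0 < τ) (hc : IsCoprime τ ι) (y : ℤ) :
    ∃ i t : ℤ, 0 ≤ t ∧ t < τ ∧ y = τ * i + ι * t := by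
  obtain ⟨u, v, huv⟩ := hc
  refine ⟨y * u + ι * ((y * v) / τ), (y * v) % τ, Int.emod_nonneg _ hτ.ne', Int.emod_lt_of_pos _ hτ, ?_⟩
  have h1 : τ * ((y * v) / τ) + (y * v) % τ = y * v := Int.mul_ediv_add_emod _ _
  linear_combination (-y) * huv - ι * h1

theorem coprime_step {τ ι A B : ℤ} (hτ : 0 < τ) (hc : IsCoprime τ ι) (h : τ * A + ι * B = 0) :
    ∃ k : ℤ, B = k * τ ∧ A = -(k * ι) := by
  have h1 : τ ∣ ι * B := ⟨-A, by linear_combination h⟩
  obtain ⟨k, hk⟩ := hc.dvd_of_dvd_mul_left h1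
  refine ⟨k, by rw [hk]; ring, ?_⟩
  have : τ * (A + k * ι) = 0 := by rw [hk] at h; linear_combination h
  rcases mul_eq_zero.1 this with h2 | h2
  · omega
  · linear_combination h2

theorem mem_glue_normal {H : AddSubmonoid ℤ} {τ ι i t : ℤ} (hτ : 0 < τ) (hc : IsCoprime τ ι)
    (hι : ι ∈ H) (ht0 : 0 ≤ t) (ht : t < τ) : τ * i + ι * t ∈ glue H τ ι ↔ i ∈ H := by
  constructor
  · rintro ⟨i', hi', t', ht', h⟩
    obtain ⟨k, hk1, hk2⟩ := coprime_step (A := i' - i) (B := t' - t) hτ hc (by linear_combination -h)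
    have hk : 0 ≤ k := by
      by_contra hneg
      have : k * τ ≤ -1 * τ := mul_le_mul_of_nonneg_right (by omega) hτ.le
      omega
    have : i = i' + ι * k := by linear_combination -hk2
    rw [this]
    exact H.add_mem hi' (mul_mem' hι hk)
  · intro hi
    exact ⟨i, hi, t, ht0, rfl⟩

theorem glue_symm {H : AddSubmonoid ℤ} {F τ ι : ℤ} (hH : Symm H F) (hτ : 0 < τ)
    (hc : IsCoprime τ ι) (hι : ι ∈ H) : Symm (glue H τ ι) (τ * F + (τ - 1) * ι) := by
  intro y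
  obtain ⟨i, t, ht0, ht, rfl⟩ := normal_form hτ hc y
  have e : τ * F + (τ - 1) * ι - (τ * i + ι * t) = τ * (F - i) + ι * (τ - 1 - t) := by ring
  rw [e, mem_glue_normal hτ hc hι ht0 ht, mem_glue_normal hτ hc hι (by omega) (by omega)]
  exact hH i

theorem acm_aux {H : AddSubmonoid ℤ} {F τ ι q h : ℤ} (hH : Symm H F) (hτ : 0 < τ)
    (hι : ι ∈ H) (hq : q ∈ H) (h2 : 2 * F - q * τ + ι ∉ H) (κ : ℕ) :
    ∀ i i' t t' : ℤ, i ∈ H → i' ∈ H → 0 ≤ t → 0 ≤ t' → h = t + t' + κ * τ →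
      i + i' = q * h + κ * ι →
      ∃ i₀ ∈ H, q * h - i₀ ∈ H ∧ ∃ t₀ : ℤ, 0 ≤ t₀ ∧ t₀ ≤ h ∧ τ * i + ι * t = τ * i₀ + ι * t₀ := by
  induction κ with
  | zero =>
    intro i i' t t' hi hi' ht ht' e1 e2
    refine ⟨i, hi, ?_, t, ht, ?_, rfl⟩
    · have : q * h - i = i' := by push_cast at e2; linear_combination -e2
      rwa [this]
    · push_cast at e1; omega
  | succ κ ih =>
    intro i i' t t' hi hi' ht ht' e1 e2
    push_cast at e1 e2
    by_cases c1 : i - ι ∈ H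
    · obtain ⟨i₀, a1, a2, t₀, a3, a4, a5⟩ := ih (i - ι) i' (t + τ) t' c1 hi' (by omega) ht'
        (by linear_combination e1) (by linear_combination e2)
      exact ⟨i₀, a1, a2, t₀, a3, a4, by linear_combination a5⟩
    by_cases c2 : i' - ι ∈ H
    · exact ih i (i' - ι) t (t' + τ) hi c2 ht (by omega)
        (by linear_combination e1) (by linear_combination e2)
    exfalso
    have d1 : F - (i - ι) ∈ H := by
      by_contra hh; exact c1 ((hH _).2 hh)
    have d2 : F - (i' - ι) ∈ H := by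
      by_contra hh; exact c2 ((hH _).2 hh)
    have hκ : (0 : ℤ) ≤ κ * τ := by positivity
    have d3 : ι * (κ : ℤ) ∈ H := mul_mem' hι (by positivity)
    have d4 : q * (h - τ) ∈ H := mul_mem' hq (by linarith)
    have := H.add_mem (H.add_mem d1 d2) (H.add_mem d3 d4)
    apply h2
    have e : 2 * F - q * τ + ι = F - (i - ι) + (F - (i' - ι)) + (ι * (κ : ℤ) + q * (h - τ)) := by
      linear_combination e2
    rwa [e]

theorem acm {H : AddSubmonoid ℤ} {F τ ι q h y : ℤ} (hH : Symm H F) (hτ : 0 < τ)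
    (hc : IsCoprime τ ι) (hι : ι ∈ H) (hq : q ∈ H) (h1 : q * (τ - 2) - ι ∉ H)
    (h2 : 2 * F - q * τ + ι ∉ H) (hh : 0 ≤ h) (hy : y ∈ glue H τ ι)
    (hy' : (q * τ + ι) * h - y ∈ glue H τ ι) :
    ∃ i₀ ∈ H, q * h - i₀ ∈ H ∧ ∃ t₀ : ℤ, 0 ≤ t₀ ∧ t₀ ≤ h ∧ y = τ * i₀ + ι * t₀ := by
  obtain ⟨i, t, ht0, ht, e⟩ := normal_form hτ hc y
  obtain ⟨i', t', ht0', ht', e'⟩ := normal_form hτ hc ((q * τ + ι) * h - y)
  rw [e, mem_glue_normal hτ hc hι ht0 ht] at hy
  rw [e', mem_glue_normal hτ hc hι ht0' ht'] at hy'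
  obtain ⟨k, hk1, hk2⟩ := coprime_step (A := i + i' - q * h) (B := t + t' - h) hτ hc
    (by linear_combination -e - e')
  have hk : k ≤ 0 := by
    by_contra hpos
    have hk1' : k = 1 := by
      by_contra hne
      have : 2 * τ ≤ k * τ := mul_le_mul_of_nonneg_right (by omega) hτ.le
      omega
    subst hk1'
    apply h1
    have d : q * (τ - 2 - h) ∈ H := mul_mem' hq (by omega)
    have e2 : q * (τ - 2) - ι = i + i' + q * (τ - 2 - h) := by linear_combination -hk2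
    rw [e2]
    exact H.add_mem (H.add_mem hy hy') d
  obtain ⟨κ, hκ⟩ := Int.eq_ofNat_of_zero_le (show 0 ≤ -k by omega)
  have hk' : k = -(κ : ℤ) := by omega
  subst hk'
  rw [e]
  exact acm_aux hH hτ hι hq h2 κ i i' t t' hy hy' ht0 ht0' (by linear_combination -hk1)
    (by linear_combination hk2)

/-- The shifted family is symmetric. -/
theorem shift_symm {H : AddSubmonoid ℤ} {F a Q k : ℤ} (hH : Symm H F) (hpos : ∀ x ∈ H, 0 ≤ x)
    (ha : a ∈ H) (ha0 : 0 < a) (hQ : Q ∈ H) (hk : a = k * Q - 2 * F) (y : ℤ) :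
    (∃ h : ℤ, y - a * h ∈ H ∧ (a + Q) * h - y ∈ H) ↔
      ¬ ∃ h : ℤ, (F + a * (k + 1) - y) - a * h ∈ H ∧ (a + Q) * h - (F + a * (k + 1) - y) ∈ H := by
  have hF : F ∉ H := by
    have := (hH 0).1 H.zero_mem
    simpa using this
  constructor
  · rintro ⟨h, b1, b2⟩ ⟨h', b3, b4⟩
    apply hF
    by_cases c : h + h' ≤ k
    · have d := mul_mem' (H.add_mem ha hQ) (show 0 ≤ k - h - h' by omega)
      have e : F = ((a + Q) * h - y) + ((a + Q) * h' - (F + a * (k + 1) - y))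
          + (a + Q) * (k - h - h') := by linear_combination hk
      rw [e]
      exact H.add_mem (H.add_mem b2 b4) d
    · have d := mul_mem' ha (show 0 ≤ h + h' - k - 1 by omega)
      have e : F = (y - a * h) + ((F + a * (k + 1) - y) - a * h') + a * (h + h' - k - 1) := by
        ring
      rw [e]
      exact H.add_mem (H.add_mem b1 b3) d
  · intro hn
    by_contra hy
    apply hn
    have hbig : ∀ x : ℤ, F < x → x ∈ H := by
      intro x hx
      refine (hH x).2 fun hh => ?_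
      have := hpos _ hh
      omega
    have hbdd : ∃ b : ℤ, ∀ z : ℤ, y - a * z ∈ H → z ≤ b := by
      refine ⟨|y|, fun z hz => ?_⟩
      have h1 := hpos _ hz
      by_contra hlt
      have h2 : 0 ≤ |y| := abs_nonneg y
      have h3 : y ≤ |y| := le_abs_self y
      nlinarith
    have hinh : ∃ z : ℤ, y - a * z ∈ H := by
      refine ⟨-(|y| + |F| + 1), hbig _ ?_⟩
      have h2 : 0 ≤ |y| := abs_nonneg y
      have h3 : -y ≤ |y| := neg_le_abs y
      have h4 : 0 ≤ |F| := abs_nonneg F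
      have h5 : F ≤ |F| := le_abs_self F
      nlinarith
    obtain ⟨h₁, p1, p2⟩ := Int.exists_greatest_of_bdd hbdd hinh
    have p3 : y - a * (h₁ + 1) ∉ H := fun hh => by have := p2 _ hh; omega
    have p4 : (a + Q) * h₁ - y ∉ H := fun hh => hy ⟨h₁, p1, hh⟩
    have p5 : F - (y - a * (h₁ + 1)) ∈ H := by
      by_contra hh; exact p3 ((hH _).2 hh)
    have p6 : F - ((a + Q) * h₁ - y) ∈ H := by
      by_contra hh; exact p4 ((hH _).2 hh)
    refine ⟨k - h₁, ?_, ?_⟩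
    · have e : F + a * (k + 1) - y - a * (k - h₁) = F - (y - a * (h₁ + 1)) := by ring
      rwa [e]
    · have e : (a + Q) * (k - h₁) - (F + a * (k + 1) - y) = F - ((a + Q) * h₁ - y) := by
        linear_combination -hk
      rwa [e]

end Pool.Agent.MP_bcc2ed_al.H66
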